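import Pool.Agent.N396.ZK.Stm2
import Pool.Agent.N396.ZK.Comb

/-!
# Choice of `s - 2` rows by averaging
-/

set_option autoImplicit false

namespace Pool.Agent.N199.ZK

open Finset Classical
open Pool.Agent.N396.ZK

variable {α β : Type}

/-- weighted double counting -/
lemma wcount (R : α → β → Prop) (P : Finset α) (Q : Finset β) (r : ℕ) (f : β → ℝ) :
    ∑ B ∈ P.powersetCard r, ∑ y ∈ com R Q B, f y =
      ∑ y ∈ Q, ((s1 R P y).card.choose r : ℝ) * f y := by
  have h1 : ∀ B ∈ P.powersetCard r, ∑ y ∈ com R Q B, f y =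
      ∑ y ∈ Q, if B ⊆ s1 R P y then f y else 0 := by
    intro B hB
    rw [mem_powersetCard] at hB
    rw [com, sum_filter]
    refine sum_congr rfl fun y _ => ?_
    simp only [sub_s1 hB.1]
  rw [sum_congr rfl h1, sum_comm]
  refine sum_congr rfl fun y _ => ?_
  rw [← sum_filter, sum_const, nsmul_eq_mul]
  congr 2
  rw [← card_powersetCard]
  congr 1
  ext A
  simp only [mem_filter, mem_powersetCard]
  exact ⟨fun h => ⟨h.2, h.1.2⟩, fun h => ⟨⟨h.1.trans (filter_subset _ _), h.2⟩, h.1⟩⟩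

/-- Chebyshev -/
lemma cheb (R : α → β → Prop) (P : Finset α) (Q : Finset β) (r : ℕ) :
    (∑ y ∈ Q, ((s1 R P y).card.choose r : ℝ)) * (∑ y ∈ Q, ((s1 R P y).card : ℝ)) ≤
      Q.card * ∑ y ∈ Q, ((s1 R P y).card.choose r : ℝ) * ((s1 R P y).card : ℝ) := by
  apply MonovaryOn.sum_mul_sum_le_card_mul_sum
  intro y _ z _ h
  change ((s1 R P y).card : ℝ) < ((s1 R P z).card : ℝ) at h
  have h1 : (s1 R P y).card < (s1 R P z).card := by exact_mod_cast h
  have h2 := Nat.choose_le_choose r h1.le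
  change ((s1 R P y).card.choose r : ℝ) ≤ ((s1 R P z).card.choose r : ℝ)
  exact_mod_cast h2

/-- main inequality for `r ≥ 1` -/
lemma main_r (r : ℕ) (hr : 1 ≤ r) (μ K n D p : ℝ) (hμ : 0 < μ) (hK : (r : ℝ) ≤ K)
    (hK1 : 1 ≤ K)
    (hn : 0 < n) (hD : 0 < D) (hDs : D ^ (r + 2) = μ * n ^ (r + 1)) (hp : K * (n / D) ≤ p)
    (hp0 : 0 < p) :
    (1 - (r : ℝ) * r / K) * (p ^ r * (μ * (n / D)) ^ 2) ≤
      μ * ((p * D - (r - 1) * n) ^ r / n ^ (r - 1)) := by
  obtain ⟨k, rfl⟩ : ∃ k, r = k + 1 := ⟨r - 1, by omega⟩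
  simp only [Nat.add_sub_cancel]
  push_cast
  push_cast at hK
  rw [add_sub_cancel_right]
  have hK0 : 0 < K := by linarith
  have hk0 : (0 : ℝ) ≤ k := Nat.cast_nonneg _
  have hpD : 0 < p * D := mul_pos hp0 hD
  set x : ℝ := k * n / (p * D) with hx
  have hx1 : p * D - k * n = p * D * (1 - x) := by
    rw [hx]; field_simp
  have hnp : n / (p * D) ≤ 1 / K := by
    rw [div_le_div_iff₀ hpD hK0]
    have := mul_le_mul_of_nonneg_right hp hD.le
    have h2 : K * (n / D) * D = K * n := by field_simp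
    linarith
  have hx2 : x ≤ k / K := by
    rw [hx, mul_div_assoc]
    calc (k : ℝ) * (n / (p * D)) ≤ k * (1 / K) := mul_le_mul_of_nonneg_left hnp hk0
      _ = k / K := by ring
  have hx3 : x ≤ 1 := by
    refine hx2.trans ?_
    rw [div_le_one hK0]
    linarith
  have hb := one_add_mul_le_pow (a := -x) (by linarith) (k + 1)
  push_cast at hb
  have h1 : 1 - ((k : ℝ) + 1) * (k + 1) / K ≤ (1 - x) ^ (k + 1) := by
    have h2 : ((k : ℝ) + 1) * x ≤ ((k : ℝ) + 1) * (k + 1) / K := by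
      calc ((k : ℝ) + 1) * x ≤ (k + 1) * (k / K) := mul_le_mul_of_nonneg_left hx2 (by linarith)
        _ = ((k : ℝ) + 1) * k / K := by ring
        _ ≤ ((k : ℝ) + 1) * (k + 1) / K := by gcongr; linarith
    have h3 : (1 + -x) ^ (k + 1) = (1 - x) ^ (k + 1) := by rw [← sub_eq_add_neg]
    rw [h3] at hb
    linarith
  have h4 : p ^ (k + 1) * (μ * (n / D)) ^ 2 = μ * ((p * D) ^ (k + 1) / n ^ k) := by
    have h5 : D ^ (k + 1) * D ^ 2 = μ * (n ^ k * n ^ 2) := by
      rw [← pow_add, ← pow_add]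
      exact hDs
    have h6 : D ^ (k + 1) = μ * (n ^ k * n ^ 2) / D ^ 2 := by
      rw [eq_div_iff (by positivity)]
      exact h5
    rw [mul_pow p D, h6]
    field_simp
  rw [h4, hx1, mul_pow (p * D)]
  calc (1 - ((k : ℝ) + 1) * (k + 1) / K) * (μ * ((p * D) ^ (k + 1) / n ^ k))
      ≤ (1 - x) ^ (k + 1) * (μ * ((p * D) ^ (k + 1) / n ^ k)) :=
        mul_le_mul_of_nonneg_right h1 (by positivity)
    _ = μ * ((p * D) ^ (k + 1) * (1 - x) ^ (k + 1) / n ^ k) := by ring

theorem pick : StmPick := by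
  intro s μ ε hs hμ hε
  obtain ⟨r, rfl⟩ : ∃ r, s = r + 2 := ⟨s - 2, by omega⟩
  have e1 : r + 2 - 2 = r := by omega
  have e2 : r + 2 - 1 = r + 1 := by omega
  rw [e1, e2]
  set K : ℝ := (r : ℝ) * r / ε + r * r + r + 1 with hK
  have hrr : (0 : ℝ) ≤ (r : ℝ) * r := by positivity
  have hr0 : (0 : ℝ) ≤ r := Nat.cast_nonneg _
  have hK1 : 1 ≤ K := by
    have : 0 ≤ (r : ℝ) * r / ε := by positivity
    rw [hK]; linarith
  have hK2 : (r : ℝ) ≤ K := by
    have : 0 ≤ (r : ℝ) * r / ε := by positivity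
    rw [hK]; linarith
  have hK3 : (r : ℝ) * r / K ≤ 1 := by
    rw [div_le_one (by linarith)]
    have : 0 ≤ (r : ℝ) * r / ε := by positivity
    rw [hK]; linarith
  have hK4 : (r : ℝ) * r / K ≤ ε := by
    rw [div_le_iff₀ (by linarith), hK]
    have h1 : ε * ((r : ℝ) * r / ε) = r * r := by field_simp
    nlinarith [mul_nonneg hε.le hrr, mul_nonneg hε.le hr0]
  refine ⟨K, by linarith, ?_⟩
  intro α β R P Q n D hQ hD hKn hDs hP hrow
  have hnD : 0 < n / D := by linarith
  have hn : 0 < n := by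
    have := mul_pos hnD hD
    rwa [div_mul_cancel₀ _ hD.ne'] at this
  have hP0 : (0 : ℝ) < P.card := by nlinarith
  have hPr : r ≤ P.card := by
    have : (r : ℝ) ≤ P.card := by nlinarith
    exact_mod_cast this
  have hsum : (P.card : ℝ) * D ≤ ∑ y ∈ Q, ((s1 R P y).card : ℝ) := by
    have h1 := sum1 R P Q
    have h2 : (∑ y ∈ Q, ((s1 R P y).card : ℝ)) = ∑ x ∈ P, ((row R Q x).card : ℝ) := by
      exact_mod_cast h1
    rw [h2, ← nsmul_eq_mul]
    exact card_nsmul_le_sum _ _ _ hrow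
  set k0 : ℝ := μ * (n / D) with hk0
  have hk0p : 0 < k0 := mul_pos hμ hnD
  have hk0D : k0 * D = μ * n := by
    rw [hk0]; field_simp
  rcases Nat.eq_zero_or_pos r with hr | hr
  · subst hr
    refine ⟨∅, empty_subset _, by simp, ?_⟩
    have hcom : com R Q (∅ : Finset α) = Q := by
      ext y; simp [com]
    rw [hcom]
    change _ ≤ 2 * k0 * ((∑ y ∈ Q, ((s1 R P y).card : ℝ)) / P.card) - k0 ^ 2 - μ * Q.card
    have h1 : D ≤ (∑ y ∈ Q, ((s1 R P y).card : ℝ)) / P.card := by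
      rw [le_div_iff₀ hP0]; linarith
    have h2 : k0 = D := by
      have h3 : D ^ 2 = μ * n := by simpa using hDs
      have h4 : k0 * D = D * D := by rw [hk0D, ← h3]; ring
      exact mul_right_cancel₀ hD.ne' h4
    have h3 : μ * Q.card ≤ μ * n := mul_le_mul_of_nonneg_left hQ hμ.le
    have h5 : k0 * D ≤ k0 * ((∑ y ∈ Q, ((s1 R P y).card : ℝ)) / P.card) :=
      mul_le_mul_of_nonneg_left h1 hk0p.le
    have h6 : k0 ^ 2 = k0 * D := by rw [h2]; ring
    have h7 : 0 ≤ ε * k0 ^ 2 := by positivity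
    linarith
  · set F := P.powersetCard r with hF
    have hFne : F.Nonempty := powersetCard_nonempty.2 hPr
    set Sg : ℝ := ∑ B ∈ F, ((com R Q B).card : ℝ) with hSg
    set St : ℝ := ∑ B ∈ F, ∑ y ∈ com R Q B, ((s1 R P y).card : ℝ) with hSt
    have hSg1 : Sg = ∑ y ∈ Q, ((s1 R P y).card.choose r : ℝ) := by
      have := mom1 R P Q r
      rw [hSg]
      exact_mod_cast this
    have hSt1 : St = ∑ y ∈ Q, ((s1 R P y).card.choose r : ℝ) * ((s1 R P y).card : ℝ) :=
      wcount R P Q r _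
    have hSt0 : 0 ≤ St := sum_nonneg fun _ _ => sum_nonneg fun _ _ => Nat.cast_nonneg _
    have hSg0 : 0 ≤ Sg := sum_nonneg fun _ _ => Nat.cast_nonneg _
    -- Chebyshev
    have h1 : (P.card : ℝ) * D * Sg ≤ n * St := by
      have h2 := cheb R P Q r
      rw [← hSg1, ← hSt1] at h2
      have h3 : Sg * ((P.card : ℝ) * D) ≤ Sg * ∑ y ∈ Q, ((s1 R P y).card : ℝ) :=
        mul_le_mul_of_nonneg_left hsum hSg0
      have h4 : (Q.card : ℝ) * St ≤ n * St := mul_le_mul_of_nonneg_right hQ hSt0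
      linarith
    have h2 : μ * Sg ≤ k0 * (St / P.card) := by
      rw [← mul_div_assoc, le_div_iff₀ hP0]
      have h3 : k0 * n * (D / n) = μ * n := by rw [← hk0D]; field_simp
      have h4 : μ * ((P.card : ℝ) * D * Sg) ≤ μ * (n * St) := mul_le_mul_of_nonneg_left h1 hμ.le
      have h5 : μ * Sg * P.card * D ≤ k0 * St * D := by
        calc μ * Sg * P.card * D = μ * ((P.card : ℝ) * D * Sg) := by ring
          _ ≤ μ * (n * St) := h4
          _ = (μ * n) * St := by ring
          _ = k0 * St * D := by rw [← hk0D]; ring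
      exact le_of_mul_le_mul_right h5 hD
    -- Jensen
    have hlow : 0 ≤ (P.card : ℝ) * D - ((r : ℝ) - 1) * n := by
      have h3 : K * n ≤ P.card * D := by
        have := mul_le_mul_of_nonneg_right hP hD.le
        calc K * n = K * (n / D) * D := by field_simp
          _ ≤ _ := this
      nlinarith
    have h3 := desc_ge hr Q (fun y => (s1 R P y).card) n ((P.card : ℝ) * D) hQ hn hsum hlow
    have h4 : (∑ y ∈ Q, ((s1 R P y).card.descFactorial r : ℝ)) = r.factorial * Sg := by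
      rw [hSg1, mul_sum]
      refine sum_congr rfl fun y _ => ?_
      rw [Nat.descFactorial_eq_factorial_mul_choose]; push_cast; rfl
    have h5 : (r.factorial : ℝ) * F.card ≤ (P.card : ℝ) ^ r := by
      rw [hF, card_powersetCard]
      have := Nat.descFactorial_le_pow P.card r
      rw [Nat.descFactorial_eq_factorial_mul_choose] at this
      exact_mod_cast this
    have h6 := main_r r hr μ K n D P.card hμ hK2 hK1 hn hD hDs hP hP0
    have h7 : (1 - (r : ℝ) * r / K) * (F.card * k0 ^ 2) ≤ μ * Sg := by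
      have hfac : (0 : ℝ) < r.factorial := by exact_mod_cast r.factorial_pos
      have h8 : (1 - (r : ℝ) * r / K) * ((r.factorial * F.card) * k0 ^ 2) ≤
          (1 - (r : ℝ) * r / K) * ((P.card : ℝ) ^ r * k0 ^ 2) := by
        apply mul_le_mul_of_nonneg_left _ (by linarith)
        exact mul_le_mul_of_nonneg_right h5 (by positivity)
      have h9 : μ * (((P.card : ℝ) * D - ((r : ℝ) - 1) * n) ^ r / n ^ (r - 1)) ≤
          μ * (r.factorial * Sg) := by
        apply mul_le_mul_of_nonneg_left _ hμ.le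
        rw [← h4]
        exact h3
      have h10 : r.factorial * ((1 - (r : ℝ) * r / K) * (F.card * k0 ^ 2)) ≤
          r.factorial * (μ * Sg) := by
        calc _ = (1 - (r : ℝ) * r / K) * ((r.factorial * F.card) * k0 ^ 2) := by ring
          _ ≤ _ := h8
          _ ≤ _ := h6
          _ ≤ _ := h9
          _ = _ := by ring
      exact le_of_mul_le_mul_left h10 hfac
    have h8 : ∑ B ∈ F, (-ε * k0 ^ 2) ≤ ∑ B ∈ F, (2 * k0 *
        ((∑ y ∈ com R Q B, ((s1 R P y).card : ℝ)) / P.card) - k0 ^ 2 - μ * (com R Q B).card) := by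
      have q1 : ∑ B ∈ F, (-ε * k0 ^ 2) = F.card * (-ε * k0 ^ 2) := by
        rw [sum_const, nsmul_eq_mul]
      have q2 : ∑ B ∈ F, (2 * k0 * ((∑ y ∈ com R Q B, ((s1 R P y).card : ℝ)) / P.card)) =
          2 * k0 * (St / P.card) := by
        rw [← mul_sum, ← sum_div]
      have q3 : ∑ B ∈ F, k0 ^ 2 = F.card * k0 ^ 2 := by
        rw [sum_const, nsmul_eq_mul]
      have q4 : ∑ B ∈ F, μ * ((com R Q B).card : ℝ) = μ * Sg := by
        rw [← mul_sum]
      rw [sum_sub_distrib, sum_sub_distrib, q1, q2, q3, q4]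
      have h9 : (r : ℝ) * r / K * (F.card * k0 ^ 2) ≤ ε * (F.card * k0 ^ 2) :=
        mul_le_mul_of_nonneg_right hK4 (by positivity)
      nlinarith
    obtain ⟨B, hB, hB2⟩ := exists_le_of_sum_le hFne h8
    rw [hF, mem_powersetCard] at hB
    exact ⟨B, hB.1, hB.2, hB2⟩

end Pool.Agent.N199.ZK
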